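import Pool.Agent.Helper36.SPR.St

/-! # Project SPR (MP_343216_nt), module PR: Jensen inequality -/

set_option autoImplicit false

namespace Pool.Agent.Helper92.SPR

open Finset
open Pool.Agent.Helper36.SPR

section PR

variable {n T : ℕ} [NeZero n]

lemma shift_one {G : Type} [AddCommGroup G] (F : ZMod n → G) (h2 : (2 : ZMod n) ^ T = 1) :
    ∑ i ∈ range T, F (2 ^ (i + 1)) = ∑ i ∈ range T, F (2 ^ i) := by
  have h1 := sum_range_succ (fun i => F (2 ^ i)) T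
  have h3 := sum_range_succ' (fun i => F (2 ^ i)) T
  rw [h1] at h3
  simp only [pow_zero] at h3
  rw [h2] at h3
  exact (add_right_cancel h3).symm

lemma shift_k {G : Type} [AddCommGroup G] (F : ZMod n → G) (h2 : (2 : ZMod n) ^ T = 1) (k : ℕ) :
    ∑ i ∈ range T, F (2 ^ i * 2 ^ k) = ∑ i ∈ range T, F (2 ^ i) := by
  induction k with
  | zero => simp
  | succ k ih =>
    rw [← ih, ← shift_one (fun x => F (x * 2 ^ k)) h2]
    refine sum_congr rfl fun i _ => ?_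
    congr 1
    ring

lemma mu_shift (h2 : (2 : ZMod n) ^ T = 1) (c : ZMod n) (k : ℕ) :
    mu n T (c * 2 ^ k) = mu n T c := by
  rw [mu, mu]
  congr 1
  rw [← shift_k (fun x => (ZMod.stdAddChar (c * x) : ℂ)) h2 k]
  refine sum_congr rfl fun i _ => ?_
  congr 1
  ring

lemma char_neg (z : ZMod n) :
    (ZMod.stdAddChar (-z) : ℂ) = (starRingEnd ℂ) (ZMod.stdAddChar z) :=
  AddChar.map_neg_eq_conj _ _

/-- the average of `ψ(c (2^i - 2^i'))` -/
lemma avg_char (hT : 0 < T) (c : ZMod n) :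
    (∑ i ∈ range T, ∑ i' ∈ range T, (ZMod.stdAddChar (c * (2 ^ i - 2 ^ i')) : ℂ))
      = (T : ℂ) ^ 2 * ((‖mu n T c‖ ^ 2 : ℝ) : ℂ) := by
  have hT' : (T : ℂ) ≠ 0 := by exact_mod_cast hT.ne'
  have h1 : (∑ i ∈ range T, (ZMod.stdAddChar (c * 2 ^ i) : ℂ)) = T * mu n T c := by
    rw [mu]; field_simp
  have h2 : (∑ i ∈ range T, ∑ i' ∈ range T, (ZMod.stdAddChar (c * (2 ^ i - 2 ^ i')) : ℂ))
      = (∑ i ∈ range T, (ZMod.stdAddChar (c * 2 ^ i) : ℂ)) *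
        (starRingEnd ℂ) (∑ i ∈ range T, (ZMod.stdAddChar (c * 2 ^ i) : ℂ)) := by
    rw [map_sum, sum_mul_sum]
    refine sum_congr rfl fun i _ => sum_congr rfl fun i' _ => ?_
    rw [← char_neg, ← AddChar.map_add_eq_mul]
    congr 1
    ring
  rw [h2, h1, map_mul, Complex.conj_natCast]
  have h3 : mu n T c * (starRingEnd ℂ) (mu n T c) = ((‖mu n T c‖ ^ 2 : ℝ) : ℂ) := by
    rw [Complex.mul_conj, Complex.normSq_eq_norm_sq]
  calc (T : ℂ) * mu n T c * (T * (starRingEnd ℂ) (mu n T c))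
      = (T : ℂ) ^ 2 * (mu n T c * (starRingEnd ℂ) (mu n T c)) := by ring
    _ = _ := by rw [h3]

lemma avg_mu (hT : 0 < T) (h2 : (2 : ZMod n) ^ T = 1) (a : ZMod n) :
    (∑ i ∈ range T, ∑ i' ∈ range T, mu n T (a * (2 ^ i - 2 ^ i')))
      = (T : ℂ) ^ 2 * ((‖mu n T a‖ ^ 2 : ℝ) : ℂ) := by
  have hT' : (T : ℂ) ≠ 0 := by exact_mod_cast hT.ne'
  have h1 : (∑ i ∈ range T, ∑ i' ∈ range T, mu n T (a * (2 ^ i - 2 ^ i')))
      = (∑ k ∈ range T, ∑ i ∈ range T, ∑ i' ∈ range T,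
          (ZMod.stdAddChar ((a * 2 ^ k) * (2 ^ i - 2 ^ i')) : ℂ)) / T := by
    have e : ∀ i i' : ℕ, mu n T (a * (2 ^ i - 2 ^ i'))
        = (∑ k ∈ range T, (ZMod.stdAddChar ((a * 2 ^ k) * (2 ^ i - 2 ^ i')) : ℂ)) / T := by
      intro i i'
      rw [mu]
      congr 1
      refine sum_congr rfl fun k _ => ?_
      congr 1
      ring
    simp only [e]
    simp only [← sum_div]
    congr 1
    rw [sum_comm_cycle]
  rw [h1]
  have h3 : ∀ k ∈ range T, (∑ i ∈ range T, ∑ i' ∈ range T,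
      (ZMod.stdAddChar ((a * 2 ^ k) * (2 ^ i - 2 ^ i')) : ℂ))
      = (T : ℂ) ^ 2 * ((‖mu n T a‖ ^ 2 : ℝ) : ℂ) := by
    intro k _
    rw [avg_char hT, mu_shift h2]
  rw [sum_congr rfl h3, sum_const, card_range, nsmul_eq_mul]
  field_simp

end PR

theorem hPR (hNA : StNA) : StPR := by
  intro n T _ hT h2 j hj a
  obtain ⟨hpos, hsum, hF, hle⟩ := hNA n T hT j
  have hTr : (0 : ℝ) < T := by exact_mod_cast hT
  have hTc : (T : ℂ) ≠ 0 := by exact_mod_cast hT.ne'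
  -- Jensen over pairs
  have hA : ‖mu n T a‖ ^ 2 ≤ ∑ x ∈ range T ×ˢ range T,
      (1 / (T : ℝ) ^ 2) * ‖mu n T (a * (2 ^ x.1 - 2 ^ x.2))‖ := by
    rw [← mul_sum]
    have h3 := avg_mu hT h2 a
    have h4 : (T : ℝ) ^ 2 * ‖mu n T a‖ ^ 2
        = ‖∑ i ∈ range T, ∑ i' ∈ range T, mu n T (a * (2 ^ i - 2 ^ i'))‖ := by
      rw [h3, norm_mul, norm_pow, Complex.norm_natCast, Complex.norm_real, Real.norm_eq_abs,
        abs_of_nonneg (sq_nonneg _)]
    have h5 : ‖∑ i ∈ range T, ∑ i' ∈ range T, mu n T (a * (2 ^ i - 2 ^ i'))‖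
        ≤ ∑ x ∈ range T ×ˢ range T, ‖mu n T (a * (2 ^ x.1 - 2 ^ x.2))‖ := by
      rw [← sum_product']
      exact norm_sum_le _ _
    rw [← h4] at h5
    rw [one_div, ← div_eq_inv_mul, le_div_iff₀ (by positivity)]
    linarith
  have hB : (∑ x ∈ range T ×ˢ range T,
      (1 / (T : ℝ) ^ 2) * ‖mu n T (a * (2 ^ x.1 - 2 ^ x.2))‖) ^ (2 * j)
      ≤ ∑ x ∈ range T ×ˢ range T,
      (1 / (T : ℝ) ^ 2) * ‖mu n T (a * (2 ^ x.1 - 2 ^ x.2))‖ ^ (2 * j) := by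
    refine Real.pow_arith_mean_le_arith_mean_pow _ _ _ (fun _ _ => by positivity) ?_
      (fun _ _ => norm_nonneg _) _
    rw [sum_const, card_product, card_range, nsmul_eq_mul]
    push_cast
    field_simp
  have hC : ∑ x ∈ range T ×ˢ range T,
      (1 / (T : ℝ) ^ 2) * ‖mu n T (a * (2 ^ x.1 - 2 ^ x.2))‖ ^ (2 * j)
      = ∑ g, nu n T j g * ‖mu n T (a * g)‖ ^ 2 := by
    apply Complex.ofReal_injective
    push_cast
    rw [← mul_sum]
    have e1 : ∀ x ∈ range T ×ˢ range T,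
        ((‖mu n T (a * (2 ^ x.1 - 2 ^ x.2))‖ : ℂ) ^ (2 * j))
        = ∑ g : ZMod n, (nu n T j g : ℂ) * ZMod.stdAddChar (a * g * (2 ^ x.1 - 2 ^ x.2)) := by
      intro x _
      have h := hF (a * (2 ^ x.1 - 2 ^ x.2))
      push_cast at h
      rw [← h]
      refine sum_congr rfl fun g _ => ?_
      congr 2
      ring
    rw [sum_congr rfl e1, sum_comm, mul_sum]
    refine sum_congr rfl fun g _ => ?_
    rw [← mul_sum, sum_product, avg_char hT (a * g)]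
    push_cast
    field_simp
  have hD : (‖mu n T a‖ ^ 2) ^ (2 * j) ≤ ∑ g, nu n T j g * ‖mu n T (a * g)‖ ^ 2 := by
    rw [← hC]
    exact (pow_le_pow_left₀ (by positivity) hA _).trans hB
  have hE : (∑ g, nu n T j g * ‖mu n T (a * g)‖ ^ 2) ^ j
      ≤ ∑ g, nu n T j g * (‖mu n T (a * g)‖ ^ 2) ^ j :=
    Real.pow_arith_mean_le_arith_mean_pow univ (fun g => nu n T j g)
      (fun g => ‖mu n T (a * g)‖ ^ 2) (fun g _ => hpos g) hsum (fun _ _ => by positivity) j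
  calc ‖mu n T a‖ ^ (4 * j ^ 2) = ((‖mu n T a‖ ^ 2) ^ (2 * j)) ^ j := by
        rw [← pow_mul, ← pow_mul]; congr 1; ring
    _ ≤ (∑ g, nu n T j g * ‖mu n T (a * g)‖ ^ 2) ^ j := pow_le_pow_left₀ (by positivity) hD _
    _ ≤ ∑ g, nu n T j g * (‖mu n T (a * g)‖ ^ 2) ^ j := hE
    _ = ∑ g, nu n T j g * ‖mu n T (a * g)‖ ^ (2 * j) := by
        refine sum_congr rfl fun g _ => ?_
        rw [← pow_mul]

end Pool.Agent.Helper92.SPR
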