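import Pool.Agent.Helper36.SPR.St4

/-!
# Project SPR3 (MP_343216_nt): module FP3 (flattening modulo a prime)
-/

set_option autoImplicit false

namespace Pool.Agent.Helper92.SPR

open Pool.Agent.Helper36.SPR
open Finset

theorem hFP3 (hNB3 : StNB3) (hST3 : StST3) (hSP : StSP) : StFP3 := by
  intro p T j _ th K hp hT h2 hj hK hb
  have : Fact p.Prime := ⟨hp⟩
  have hK1 : (1 : ℝ) ≤ K := by linarith only [hK]
  have hK0 : (0 : ℝ) < K := by linarith only [hK]
  obtain ⟨_, _, hb0, hbp, _, _, _⟩ := hNB3 p T th hT j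
  have hp0 : (0 : ℝ) < (p : ℝ) := by exact_mod_cast hp.pos
  have hbpos : 0 < betv p T th j := lt_of_lt_of_le (by positivity) hbp
  have heta : (∑ x : ZMod p, if IsUnit x then 0 else nuv p T th j x) = betv p T th j := by
    rw [Finset.sum_eq_single (0 : ZMod p)]
    · rw [if_neg (by simp)]; rfl
    · intro x _ hx
      rw [if_pos (isUnit_iff_ne_zero.mpr hx)]
    · intro h; exact absurd (Finset.mem_univ _) h
  by_cases hcase : 4 * betv p T th j ^ 2 ≤ betv p T th j / (2 * K)
  · obtain ⟨S, hSne, h1, h2', h3, h4, _⟩ := hST3 p T th hT h2 j K hj hK hb (by rw [heta]; exact hcase)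
    have hM2 : (2 : ℝ) ≤ K ^ 218 := by
      calc (2 : ℝ) ≤ K := hK
        _ = K ^ 1 := (pow_one K).symm
        _ ≤ K ^ 218 := pow_le_pow_right₀ hK1 (by norm_num)
    have hMM : (K ^ 218) ^ 100 = K ^ 21800 := by rw [← pow_mul]
    rcases hSP p S (K ^ 218) hp hSne hM2 h1 h2' with h | h
    · left
      rw [hMM] at h
      calc (1 : ℝ) ≤ K ^ 81 * betv p T th j * S.card := h3
        _ ≤ K ^ 81 * betv p T th j * K ^ 21800 := mul_le_mul_of_nonneg_left h (by positivity)
        _ = K ^ 21881 * betv p T th j := by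
            rw [mul_right_comm, ← pow_add]
        _ ≤ K ^ 22000 * betv p T th j :=
            mul_le_mul_of_nonneg_right (pow_le_pow_right₀ hK1 (by norm_num)) hb0
    · right
      rw [hMM] at h
      calc (p : ℝ) * betv p T th j ≤ K ^ 21800 * S.card * betv p T th j :=
            mul_le_mul_of_nonneg_right h hb0
        _ = K ^ 21800 * (S.card * betv p T th j) := by rw [mul_assoc]
        _ ≤ K ^ 21800 * K ^ 6 := mul_le_mul_of_nonneg_left h4 (by positivity)
        _ = K ^ 21806 := by rw [← pow_add]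
        _ ≤ K ^ 22000 := pow_le_pow_right₀ hK1 (by norm_num)
  · left
    have hlt : betv p T th j / (2 * K) < 4 * betv p T th j ^ 2 := not_le.mp hcase
    have h8 : 1 ≤ 8 * K * betv p T th j := by
      rw [div_lt_iff₀ (by positivity)] at hlt
      have h9 : betv p T th j * 1 < betv p T th j * (8 * K * betv p T th j) := by
        calc betv p T th j * 1 = betv p T th j := mul_one _
          _ < 4 * betv p T th j ^ 2 * (2 * K) := hlt
          _ = betv p T th j * (8 * K * betv p T th j) := by ring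
      exact (lt_of_mul_lt_mul_left h9 hb0).le
    have hK3 : (8 : ℝ) ≤ K ^ 3 := by
      calc (8 : ℝ) = 2 ^ 3 := by norm_num
        _ ≤ K ^ 3 := pow_le_pow_left₀ (by norm_num) hK 3
    have hK4 : 8 * K ≤ K ^ 4 := by
      calc 8 * K ≤ K ^ 3 * K := mul_le_mul_of_nonneg_right hK3 hK0.le
        _ = K ^ 4 := by ring
    calc (1 : ℝ) ≤ 8 * K * betv p T th j := h8
      _ ≤ K ^ 4 * betv p T th j := mul_le_mul_of_nonneg_right hK4 hb0
      _ ≤ K ^ 22000 * betv p T th j :=
          mul_le_mul_of_nonneg_right (pow_le_pow_right₀ hK1 (by norm_num)) hb0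

end Pool.Agent.Helper92.SPR
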